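import Pool.Agent.H874R3.MQ.Stmts
import Pool.Agent.Helper186.ParamInt

/-!
Task PSI of project H874-MQ.
-/

set_option autoImplicit false

open Real Set MeasureTheory
open scoped ContDiff

namespace Pool.Agent.H708R3.MQ

open Pool.Agent.H874R3.MQ

theorem chi_contDiff : ContDiff ℝ ∞ chi := by
  unfold chi
  exact Real.smoothTransition.contDiff.comp (by fun_prop)

theorem psi_contDiff : ContDiff ℝ ∞ psi := by
  rw [contDiff_iff_contDiffAt]
  intro q
  by_cases hq : q < 3 / 4
  · have h1 : (1 : ℝ) - q ≠ 0 := by linarith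
    have h2 : √(1 - q) ≠ 0 := (Real.sqrt_pos.mpr (by linarith)).ne'
    unfold psi
    refine ContDiffAt.div ?_ ?_ h2
    · exact (by fun_prop : ContDiffAt ℝ ∞ (fun q : ℝ => 1 - 2 * q) q).mul chi_contDiff.contDiffAt
    · exact ContDiffAt.sqrt (by fun_prop) h1
  · have h0 : psi =ᶠ[nhds q] fun _ => 0 := by
      filter_upwards [Ioi_mem_nhds (show (1 / 2 : ℝ) < q by linarith)] with r hr
      have : chi r = 0 := by
        unfold chi
        apply Real.smoothTransition.zero_of_nonpos
        simp only [mem_Ioi] at hr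
        linarith
      simp [psi, this]
    exact (contDiffAt_const (c := (0 : ℝ))).congr_of_eventuallyEq h0

theorem Psi_contDiff : ContDiff ℝ ∞ Psi := by
  have hk : ContDiff ℝ ∞ (fun x : ℝ × ℝ => psi (x.2 * cos x.1 ^ 2)) := by
    apply psi_contDiff.comp
    exact contDiff_snd.mul ((Real.contDiff_cos.comp contDiff_fst).pow 2)
  rw [← contDiffOn_univ]
  have := Pool.Agent.Helper186.contDiffOn_paramInt isOpen_univ (π / 2) hk.contDiffOn
  exact this

theorem Psi_zero : Psi 0 = π / 2 := by
  have h : psi 0 = 1 := by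
    unfold psi chi
    rw [Real.smoothTransition.one_of_one_le (by norm_num)]
    norm_num
  unfold Psi
  simp [h]

theorem taskPsi : TaskPsi := ⟨psi_contDiff, Psi_contDiff, Psi_zero⟩

end Pool.Agent.H708R3.MQ
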